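import Mathlib

set_option autoImplicit false

/-!
# Sets meeting all progressions with difference one and two

Let `k ≥ 4` be even and let `C ⊆ {0, ..., M-1}` meet every progression of `k` terms with difference
`1` or `2` in `{0, ..., M-1}`. Then `M ≤ (k-1) |C| + 2k + 2`: a gap of length `k` between
consecutive elements of `C` is adjacent to a gap of length at most `k-3`.
-/

namespace Pool.Agent.N945.NP

open Finset

/-- number of elements below `x` -/
def below (C : Finset ℕ) (x : ℕ) : ℕ := (C.filter (fun a => a < x)).card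

theorem below_next {C : Finset ℕ} {x y : ℕ} (hy : y ∈ C) (hyx : y < x)
    (h : ∀ z ∈ C, y < z → z < x → False) : below C x = below C y + 1 := by
  classical
  unfold below
  have h1 : C.filter (fun a => a < x) = insert y (C.filter (fun a => a < y)) := by
    ext a
    rw [mem_insert, mem_filter, mem_filter]
    constructor
    · rintro ⟨h2, h3⟩
      rcases lt_trichotomy a y with h4 | h4 | h4
      · exact Or.inr ⟨h2, h4⟩
      · exact Or.inl h4
      · exact (h a h2 h4 h3).elim
    · rintro (h2 | ⟨h2, h3⟩)
      · subst h2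
        exact ⟨hy, hyx⟩
      · exact ⟨h2, by omega⟩
  rw [h1, card_insert_of_notMem (by simp)]

/-- the hitting property for the difference `d` -/
def Hit (k M d : ℕ) (C : Finset ℕ) : Prop :=
  ∀ x : ℕ, x + (k - 1) * d < M → ∃ l : ℕ, l < k ∧ x + l * d ∈ C

/-- a gap of length `k` is adjacent to a short gap -/
theorem adjacent {k M : ℕ} {C : Finset ℕ} (hk : 4 ≤ k) (hev : Even k) (h2 : Hit k M 2 C) {y : ℕ}
    (hy : k ≤ y) (hyM : y + k + 1 < M) (hgap : ∀ z ∈ C, y < z → z < y + k → False)
    (hL : ∀ z ∈ C, y ≤ z + (k - 3) → z < y → False) (hR : y + k + 1 ∈ C → False) :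
    y ∈ C → y + k ∈ C → False := by
  intro hyC hykC
  obtain ⟨m, hm⟩ := hev
  obtain ⟨l, hl, hmem⟩ := h2 (y - (k - 3)) (by omega)
  rcases lt_trichotomy (y - (k - 3) + l * 2) y with h | h | h
  · exact hL _ hmem (by omega) h
  · omega
  · rcases lt_trichotomy (y - (k - 3) + l * 2) (y + k) with h3 | h3 | h3
    · exact hgap _ hmem h h3
    · omega
    · have h4 : y - (k - 3) + l * 2 = y + k + 1 := by omega
      rw [h4] at hmem
      exact hR hmem

/-- the three estimates -/
theorem main {k M : ℕ} {C : Finset ℕ} (hk : 4 ≤ k) (hev : Even k) (hC : ∀ x ∈ C, x < M)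
    (h1 : Hit k M 1 C) (h2 : Hit k M 2 C) : ∀ x : ℕ, x ∈ C →
    x ≤ (k - 1) * below C x + (2 * k + 1) ∧
    (x + 1 < M → (∀ z ∈ C, x < z → z ≤ x + (k - 3) → False) →
      x ≤ (k - 1) * below C x + 2 * k) ∧
    ((∃ z ∈ C, z < x ∧ x ≤ z + (k - 3)) → x + 1 ≤ (k - 1) * below C x + 2 * k) := by
  classical
  intro x
  induction x using Nat.strong_induction_on with
  | _ x ih =>
    intro hx
    rcases Nat.lt_or_ge x (2 * k) with hs | hs
    · exact ⟨by omega, fun _ _ => by omega, fun _ => by omega⟩
    · -- the previous element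
      have hxM := hC x hx
      have hne : (C.filter (fun a => a < x)).Nonempty := by
        obtain ⟨l, hl, hmem⟩ := h1 (x - k) (by omega)
        exact ⟨_, mem_filter.2 ⟨hmem, by omega⟩⟩
      obtain ⟨y, hyd⟩ : ∃ y, y = (C.filter (fun a => a < x)).max' hne := ⟨_, rfl⟩
      have hymem : y ∈ C.filter (fun a => a < x) := by
        rw [hyd]
        exact max'_mem _ _
      obtain ⟨hyC, hyx⟩ := mem_filter.1 hymem
      have hmax : ∀ z ∈ C, y < z → z < x → False := by
        intro z hz h3 h4
        have h5 := le_max' (C.filter (fun a => a < x)) z (mem_filter.2 ⟨hz, h4⟩)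
        rw [← hyd] at h5
        omega
      have hgk : x ≤ y + k := by
        obtain ⟨l, hl, hmem⟩ := h1 (x - k) (by omega)
        by_contra hcon
        exact hmax _ hmem (by omega) (by omega)
      obtain ⟨i1, i2, i3⟩ := ih y hyx hyC
      have hb := below_next hyC hyx hmax
      have hb' : (k - 1) * below C x = (k - 1) * below C y + (k - 1) := by
        rw [hb]
        ring
      rw [hb']
      obtain ⟨P, hP⟩ : ∃ P, P = (k - 1) * below C y := ⟨_, rfl⟩
      rw [← hP] at i1 i2 i3 ⊢
      rcases Nat.lt_or_ge (y + (k - 3)) x with hg | hg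
      · -- long gap
        have j2 : y ≤ P + 2 * k := i2 (by omega) (fun z hz h3 h4 => hmax z hz h3 (by omega))
        refine ⟨by omega, fun hxM1 hno => ?_, ?_⟩
        · rcases Nat.lt_or_ge x (y + k) with hg2 | hg2
          · omega
          · have hxy : x = y + k := by omega
            by_contra hcon
            have hL : ∀ z ∈ C, y ≤ z + (k - 3) → z < y → False := by
              intro z hz h3 h4
              have := i3 ⟨z, hz, h4, h3⟩
              omega
            refine adjacent hk hev h2 (y := y) (by omega) (by omega)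
              (fun z hz h3 h4 => hmax z hz h3 (by omega)) hL ?_ hyC (by rw [← hxy]; exact hx)
            intro h5
            exact hno _ h5 (by omega) (by omega)
        · rintro ⟨z, hz, h3, h4⟩
          exfalso
          rcases Nat.lt_or_ge y z with h5 | h5
          · exact hmax z hz h5 h3
          · omega
      · -- short gap
        exact ⟨by omega, fun _ _ => by omega, fun _ => by omega⟩

theorem hit_card {k M : ℕ} {C : Finset ℕ} (hk : 4 ≤ k) (hev : Even k) (hC : ∀ x ∈ C, x < M)
    (h1 : Hit k M 1 C) (h2 : Hit k M 2 C) : M ≤ (k - 1) * C.card + (2 * k + 2) := by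
  classical
  rcases Nat.lt_or_ge M k with hM | hM
  · omega
  · have hne : C.Nonempty := by
      obtain ⟨l, hl, hmem⟩ := h1 0 (by omega)
      exact ⟨_, hmem⟩
    have hx := max'_mem C hne
    obtain ⟨x, hxd⟩ : ∃ x, x = C.max' hne := ⟨_, rfl⟩
    rw [← hxd] at hx
    obtain ⟨i1, -, -⟩ := main hk hev hC h1 h2 x hx
    have hmax : ∀ z ∈ C, z ≤ x := by
      intro z hz
      rw [hxd]
      exact le_max' C z hz
    have hxM := hC x hx
    have hcard : C.card = below C x + 1 := by
      have h3 := below_next (x := M) hx hxM (fun z hz h4 _ => by have := hmax z hz; omega)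
      rw [← h3]
      unfold below
      rw [filter_true_of_mem hC]
    have hMx : M ≤ x + k := by
      by_contra hcon
      obtain ⟨l, hl, hmem⟩ := h1 (x + 1) (by omega)
      have := hmax _ hmem
      omega
    have h3 : (k - 1) * C.card = (k - 1) * below C x + (k - 1) := by
      rw [hcard]
      ring
    omega

end Pool.Agent.N945.NP
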