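import Pool.Agent.Y869.NP.Up

set_option autoImplicit false

/-!
# Upper bound with growing numbers of cells

If at most `ρ 2^μ + c` of `2^μ` consecutive cells can be met, for every `μ`, then using `2^(μ+i)`
cells at the scale number `i` the upper bound holds with the exact exponent.
-/

namespace Pool.Agent.N945.NP

open Pool.Agent.Y869.NP

/-- among `M` consecutive cells at most `R` can be met -/
def HM (k M R : ℕ) : Prop :=
  ∀ H : Finset ℕ, H ⊆ Finset.range M →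
    (∀ x i : ℕ, 2 ^ i < M → ¬ ∀ l : ℕ, l < k → x + l * 2 ^ i ∈ H) → H.card ≤ R

theorem block' {k M R n N j ℓ Q s₀ : ℕ} {A : Finset ℕ} (hU : HM k M R) (hA : Av k n A)
    (hn : n < 2 ^ N) (hN : N ≤ 2 * j) (hℓ : 0 < ℓ) (hℓw : ℓ ≤ 2 ^ (2 * j - N) + 1)
    (hQ : 2 ^ j ≤ Q * ℓ) (hs : M * 2 ^ j ≤ s₀) (B : ℝ)
    (hB : ∀ s : ℕ, M * 2 ^ j ≤ s → (cnt A s ℓ : ℝ) ≤ B) :
    (cnt A s₀ (M * 2 ^ j) : ℝ) ≤ Q * (R * B) := by
  classical
  have hB0 : 0 ≤ B := le_trans (Nat.cast_nonneg _) (hB s₀ hs)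
  obtain ⟨D, hD⟩ : ∃ D : ℕ, D = 2 ^ j := ⟨_, rfl⟩
  have hDpos : 0 < D := by rw [hD]; positivity
  let Cc : ℕ → ℕ → Finset ℕ := fun e h =>
    A.filter (fun a => s₀ + h * D + e * ℓ ≤ a ∧ a < s₀ + h * D + e * ℓ + ℓ)
  let Hh : ℕ → Finset ℕ := fun e => (Finset.range M).filter (fun h => (Cc e h).Nonempty)
  have hHcard : ∀ e, (Hh e).card ≤ R := by
    intro e
    apply hU
    · exact Finset.filter_subset _ _
    · intro x i hi hall
      have hw : 2 ^ (2 * j - N) * n < (2 ^ (i + j)) ^ 2 := by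
        calc 2 ^ (2 * j - N) * n < 2 ^ (2 * j - N) * 2 ^ N :=
              Nat.mul_lt_mul_of_pos_left hn (by positivity)
          _ = 2 ^ (2 * j) := by rw [← pow_add]; congr 1; omega
          _ ≤ 2 ^ ((i + j) * 2) := Nat.pow_le_pow_right (by norm_num) (by omega)
          _ = (2 ^ (i + j)) ^ 2 := by rw [pow_mul]
      have hD2 : 2 ^ (i + j) ≤ s₀ := by
        calc 2 ^ (i + j) = 2 ^ i * 2 ^ j := by rw [pow_add]
          _ ≤ M * 2 ^ j := Nat.mul_le_mul_right _ hi.le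
          _ ≤ s₀ := hs
      refine hA (i + j) (2 ^ (2 * j - N)) hw ⟨s₀ + x * D + e * ℓ - 2 ^ (i + j), fun i' hi' => ?_⟩
      rw [Finset.mem_Icc] at hi'
      obtain ⟨l, rfl⟩ : ∃ l : ℕ, i' = l + 1 := ⟨i' - 1, by omega⟩
      have hl := hall l (by omega)
      rw [Finset.mem_filter] at hl
      obtain ⟨a, ha⟩ := hl.2
      rw [Finset.mem_filter] at ha
      obtain ⟨haA, h1, h2⟩ := ha
      have h3 : (x + l * 2 ^ i) * D = x * D + l * 2 ^ (i + j) := by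
        rw [hD, pow_add]; ring
      have h4 : (l + 1) * 2 ^ (i + j) = l * 2 ^ (i + j) + 2 ^ (i + j) := by ring
      rw [h3] at h1 h2
      rw [h4]
      exact ⟨a, haA, by omega, by omega⟩
  have hsub : A.filter (fun a => s₀ ≤ a ∧ a < s₀ + M * 2 ^ j) ⊆
      (Finset.range Q).biUnion (fun e => (Hh e).biUnion (fun h => Cc e h)) := by
    intro a ha
    rw [Finset.mem_filter] at ha
    obtain ⟨haA, h1, h2⟩ := ha
    rw [← hD] at h2 hQ
    obtain ⟨x, rfl⟩ := Nat.exists_eq_add_of_le h1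
    have hx : x < M * D := by omega
    have hd1 := Nat.div_add_mod x D
    have hd2 := Nat.mod_lt x hDpos
    obtain ⟨h, hh⟩ : ∃ h : ℕ, h = x / D := ⟨_, rfl⟩
    obtain ⟨r, hr⟩ : ∃ r : ℕ, r = x % D := ⟨_, rfl⟩
    have hhM : h < M := by
      rw [hh]
      exact Nat.div_lt_of_lt_mul (by rw [Nat.mul_comm]; exact hx)
    rw [← hh, ← hr] at hd1
    rw [← hr] at hd2
    have he1 := Nat.div_add_mod r ℓ
    have he2 := Nat.mod_lt r hℓ
    obtain ⟨e, he⟩ : ∃ e : ℕ, e = r / ℓ := ⟨_, rfl⟩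
    have heQ : e < Q := by
      rw [he]
      exact Nat.div_lt_of_lt_mul (by rw [Nat.mul_comm]; omega)
    rw [← he] at he1
    have hc1 : D * h = h * D := Nat.mul_comm _ _
    have hc2 : ℓ * e = e * ℓ := Nat.mul_comm _ _
    have hmem : s₀ + x ∈ Cc e h := by
      rw [Finset.mem_filter]
      refine ⟨haA, ?_, ?_⟩ <;> omega
    rw [Finset.mem_biUnion]
    refine ⟨e, Finset.mem_range.2 heQ, ?_⟩
    rw [Finset.mem_biUnion]
    refine ⟨h, ?_, hmem⟩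
    rw [Finset.mem_filter]
    exact ⟨Finset.mem_range.2 hhM, ⟨_, hmem⟩⟩
  have hcell : ∀ e h, ((Cc e h).card : ℝ) ≤ B := by
    intro e h
    have := hB (s₀ + h * D + e * ℓ) (by omega)
    exact this
  unfold cnt
  calc ((A.filter (fun a => s₀ ≤ a ∧ a < s₀ + M * 2 ^ j)).card : ℝ)
      ≤ (((Finset.range Q).biUnion (fun e => (Hh e).biUnion (fun h => Cc e h))).card : ℝ) := by
        exact_mod_cast Finset.card_le_card hsub
    _ ≤ ((∑ e ∈ Finset.range Q, ((Hh e).biUnion (fun h => Cc e h)).card : ℕ) : ℝ) := by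
        exact_mod_cast Finset.card_biUnion_le
    _ = ∑ e ∈ Finset.range Q, (((Hh e).biUnion (fun h => Cc e h)).card : ℝ) := by push_cast; rfl
    _ ≤ ∑ e ∈ Finset.range Q, (R * B) := by
        apply Finset.sum_le_sum
        intro e _
        calc (((Hh e).biUnion (fun h => Cc e h)).card : ℝ)
            ≤ ((∑ h ∈ Hh e, (Cc e h).card : ℕ) : ℝ) := by exact_mod_cast Finset.card_biUnion_le
          _ = ∑ h ∈ Hh e, ((Cc e h).card : ℝ) := by push_cast; rfl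
          _ ≤ ∑ h ∈ Hh e, B := Finset.sum_le_sum (fun h _ => hcell e h)
          _ = (Hh e).card * B := by rw [Finset.sum_const, nsmul_eq_mul]
          _ ≤ R * B := by
              apply mul_le_mul_of_nonneg_right _ hB0
              exact_mod_cast hHcard e
    _ = Q * (R * B) := by rw [Finset.sum_const, Finset.card_range, nsmul_eq_mul]

/-- the recursion: `2^(μ + i)` cells at the scale number `i` -/
theorem recur' {k n N : ℕ} {A : Finset ℕ} {R : ℕ → ℕ} {ρ c : ℝ} (hρ : 0 ≤ ρ) (hc : 0 ≤ c)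
    (hU : ∀ μ : ℕ, HM k (2 ^ μ) (R μ)) (hR : ∀ μ : ℕ, (R μ : ℝ) ≤ 2 ^ μ * (ρ + c / 2 ^ μ))
    (hA : Av k n A) (hn : n < 2 ^ N) : ∀ κ v μ j : ℕ, j + v = N →
      2 ^ κ * (v + μ + 2) ≤ N → ∀ s : ℕ, 2 ^ μ * 2 ^ j ≤ s →
      (cnt A s (2 ^ μ * 2 ^ j) : ℝ) ≤
        2 ^ μ * 2 ^ j * ∏ i ∈ Finset.range κ, (ρ + c / 2 ^ (μ + i)) := by
  intro κ
  induction κ with
  | zero =>
    intro v μ j _ _ s _
    rw [Finset.prod_range_zero, mul_one]
    exact_mod_cast cnt_le A s (2 ^ μ * 2 ^ j)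
  | succ κ ih =>
    intro v μ j hj hκ s hs
    have hκ1 : 2 ^ (κ + 1) * (v + μ + 2) = 2 ^ κ * ((2 * v + (μ + 1)) + (μ + 1) + 2) := by ring
    have h2κ : 1 ≤ 2 ^ κ := Nat.one_le_two_pow
    have h2κ' : 1 * ((2 * v + (μ + 1)) + (μ + 1) + 2) ≤
        2 ^ κ * ((2 * v + (μ + 1)) + (μ + 1) + 2) := Nat.mul_le_mul_right _ h2κ
    obtain ⟨j', hj'⟩ : ∃ j' : ℕ, j' + (2 * v + (μ + 1)) = N := ⟨N - (2 * v + (μ + 1)), by omega⟩
    have hIH := ih (2 * v + (μ + 1)) (μ + 1) j' hj' (by rw [← hκ1]; exact hκ)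
    obtain ⟨B, hBd⟩ : ∃ B : ℝ, B = 2 ^ (μ + 1) * 2 ^ j' *
        ∏ i ∈ Finset.range κ, (ρ + c / 2 ^ (μ + 1 + i)) := ⟨_, rfl⟩
    have e1 : 2 ^ (μ + 1) * 2 ^ j' = 2 ^ (2 * j - N) := by
      rw [← pow_add]
      congr 1
      omega
    have e2 : 2 ^ (2 * j - N) ≤ 2 ^ μ * 2 ^ j := by
      rw [← pow_add]
      exact Nat.pow_le_pow_right (by norm_num) (by omega)
    have hB : ∀ s' : ℕ, 2 ^ μ * 2 ^ j ≤ s' → (cnt A s' (2 ^ (μ + 1) * 2 ^ j') : ℝ) ≤ B := by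
      intro s' hs'
      rw [hBd]
      exact hIH s' (by rw [e1]; exact le_trans e2 hs')
    have hprod : (0 : ℝ) ≤ ∏ i ∈ Finset.range κ, (ρ + c / 2 ^ (μ + 1 + i)) :=
      Finset.prod_nonneg fun i _ => by positivity
    have hblock := block' (Q := 2 ^ v) (hU μ) hA hn (by omega) (by positivity)
      (by rw [e1]; omega)
      (by
        rw [e1, ← pow_add]
        exact Nat.pow_le_pow_right (by norm_num) (by omega)) hs B hB
    refine hblock.trans ?_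
    rw [Finset.prod_range_succ']
    have h5 : ∏ i ∈ Finset.range κ, (ρ + c / 2 ^ (μ + (i + 1))) =
        ∏ i ∈ Finset.range κ, (ρ + c / 2 ^ (μ + 1 + i)) := by
      refine Finset.prod_congr rfl fun i _ => ?_
      rw [show μ + (i + 1) = μ + 1 + i by ring]
    rw [h5, hBd, add_zero]
    obtain ⟨P, hP⟩ : ∃ P, P = ∏ i ∈ Finset.range κ, (ρ + c / 2 ^ (μ + 1 + i)) := ⟨_, rfl⟩
    rw [← hP] at hprod ⊢
    have h6 : ((2 ^ v : ℕ) : ℝ) * (2 ^ (μ + 1) * 2 ^ j') = 2 ^ j := by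
      have h7 : (2 : ℝ) ^ v * 2 ^ (2 * j - N) = 2 ^ j := by
        rw [← pow_add]
        congr 1
        omega
      rw [← h7]
      push_cast
      congr 1
      exact_mod_cast e1
    calc ((2 ^ v : ℕ) : ℝ) * ((R μ : ℝ) * (2 ^ (μ + 1) * 2 ^ j' * P))
        = (((2 ^ v : ℕ) : ℝ) * (2 ^ (μ + 1) * 2 ^ j')) * (P * R μ) := by ring
      _ = 2 ^ j * (P * R μ) := by rw [h6]
      _ ≤ 2 ^ j * (P * (2 ^ μ * (ρ + c / 2 ^ μ))) := by
          apply mul_le_mul_of_nonneg_left _ (by positivity)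
          exact mul_le_mul_of_nonneg_left (hR μ) hprod
      _ = 2 ^ μ * 2 ^ j * (P * (ρ + c / 2 ^ μ)) := by ring

theorem prod_bound {ρ c : ℝ} (hρ : 0 < ρ) (hc : 0 ≤ c) (κ : ℕ) :
    ∏ i ∈ Finset.range κ, (ρ + c / 2 ^ i) ≤ ρ ^ κ * Real.exp (2 * c / ρ) := by
  have h1 : ∀ i ∈ Finset.range κ, ρ + c / 2 ^ i ≤ ρ * Real.exp (c / ρ * (1 / 2) ^ i) := by
    intro i _
    have h2 := Real.add_one_le_exp (c / ρ * (1 / 2) ^ i)
    calc ρ + c / 2 ^ i = ρ * (c / ρ * (1 / 2) ^ i + 1) := by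
          rw [one_div, inv_pow]
          field_simp
          ring
      _ ≤ _ := mul_le_mul_of_nonneg_left h2 hρ.le
  refine (Finset.prod_le_prod (fun i _ => by positivity) h1).trans ?_
  rw [Finset.prod_mul_distrib, Finset.prod_const, Finset.card_range, ← Real.exp_sum,
    ← Finset.mul_sum]
  apply mul_le_mul_of_nonneg_left _ (by positivity)
  apply Real.exp_le_exp.2
  have h3 : ∑ i ∈ Finset.range κ, (1 / 2 : ℝ) ^ i ≤ 2 := by
    have h4 := geom_sum_eq (show (1 / 2 : ℝ) ≠ 1 by norm_num) κ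
    rw [h4]
    have h5 : (0 : ℝ) < (1 / 2) ^ κ := by positivity
    rw [div_le_iff_of_neg (by norm_num)]
    linarith
  have h6 : 0 ≤ c / ρ := by positivity
  calc c / ρ * ∑ i ∈ Finset.range κ, (1 / 2 : ℝ) ^ i ≤ c / ρ * 2 :=
        mul_le_mul_of_nonneg_left h3 h6
    _ = 2 * c / ρ := by ring

theorem dyadic' {k n N K l i : ℕ} {A : Finset ℕ} {R : ℕ → ℕ} {ρ c : ℝ} (hρ : 1 ≤ 4 * ρ)
    (hc : 0 ≤ c)
    (hU : ∀ μ : ℕ, HM k (2 ^ μ) (R μ)) (hR : ∀ μ : ℕ, (R μ : ℝ) ≤ 2 ^ μ * (ρ + c / 2 ^ μ))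
    (hA : Av k n A) (hn : n < 2 ^ N) (hK : 2 ^ K ≤ N) (hi : i < N) (hl : N - i + 2 ≤ 2 ^ l) :
    (cnt A (2 ^ i) (2 ^ i) : ℝ) ≤ Real.exp (2 * c / ρ) * 2 ^ i * (ρ ^ K * 4 ^ l) := by
  have hρ0 : 0 < ρ := by linarith
  have hE : 1 ≤ Real.exp (2 * c / ρ) := Real.one_le_exp (by positivity)
  by_cases hlK : l ≤ K
  · have hrec := recur' hρ0.le hc hU hR hA hn (K - l) (N - i) 0 i (by omega) (by
      calc 2 ^ (K - l) * (N - i + 0 + 2) ≤ 2 ^ (K - l) * 2 ^ l := Nat.mul_le_mul_left _ (by omega)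
        _ = 2 ^ K := by rw [← pow_add]; congr 1; omega
        _ ≤ N := hK) (2 ^ i) (by rw [pow_zero, one_mul])
    rw [pow_zero, one_mul, pow_zero, one_mul] at hrec
    simp only [zero_add] at hrec
    have h1 := prod_bound hρ0 hc (K - l)
    have h5 : ρ ^ K = ρ ^ (K - l) * ρ ^ l := by rw [← pow_add]; congr 1; omega
    have h6 : 1 ≤ (ρ * 4) ^ l := one_le_pow₀ (by linarith)
    have h7 : 0 < ρ ^ (K - l) := by positivity
    calc (cnt A (2 ^ i) (2 ^ i) : ℝ) ≤ 2 ^ i * ∏ i ∈ Finset.range (K - l), (ρ + c / 2 ^ i) := hrec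
      _ ≤ 2 ^ i * (ρ ^ (K - l) * Real.exp (2 * c / ρ)) :=
          mul_le_mul_of_nonneg_left h1 (by positivity)
      _ = Real.exp (2 * c / ρ) * 2 ^ i * (ρ ^ (K - l) * 1) := by ring
      _ ≤ Real.exp (2 * c / ρ) * 2 ^ i * (ρ ^ (K - l) * (ρ * 4) ^ l) := by
          apply mul_le_mul_of_nonneg_left _ (by positivity)
          exact mul_le_mul_of_nonneg_left h6 h7.le
      _ = Real.exp (2 * c / ρ) * 2 ^ i * (ρ ^ K * 4 ^ l) := by rw [h5, mul_pow]; ring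
  · push Not at hlK
    have h1 : (cnt A (2 ^ i) (2 ^ i) : ℝ) ≤ 2 ^ i := by exact_mod_cast cnt_le A (2 ^ i) (2 ^ i)
    have h2 : 1 ≤ ρ ^ K * 4 ^ l := by
      have h5 : (4 : ℝ) ^ l = 4 ^ K * 4 ^ (l - K) := by rw [← pow_add]; congr 1; omega
      rw [h5, ← mul_assoc, ← mul_pow]
      have h6 : 1 ≤ (ρ * 4) ^ K := one_le_pow₀ (by linarith)
      have h7 : (1 : ℝ) ≤ 4 ^ (l - K) := one_le_pow₀ (by norm_num)
      nlinarith
    have h3 : (0 : ℝ) < 2 ^ i := by positivity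
    calc (cnt A (2 ^ i) (2 ^ i) : ℝ) ≤ 1 * 2 ^ i * 1 := by linarith
      _ ≤ Real.exp (2 * c / ρ) * 2 ^ i * 1 := by
          apply mul_le_mul_of_nonneg_right _ (by norm_num)
          exact mul_le_mul_of_nonneg_right hE h3.le
      _ ≤ Real.exp (2 * c / ρ) * 2 ^ i * (ρ ^ K * 4 ^ l) :=
          mul_le_mul_of_nonneg_left h2 (by positivity)

/-- The upper bound. -/
theorem up' {k : ℕ} {R : ℕ → ℕ} {ρ c : ℝ} (hρ : 1 ≤ 4 * ρ) (hc : 0 ≤ c)
    (hU : ∀ μ : ℕ, HM k (2 ^ μ) (R μ)) (hR : ∀ μ : ℕ, (R μ : ℝ) ≤ 2 ^ μ * (ρ + c / 2 ^ μ)) :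
    ∃ C : ℝ, 0 < C ∧ ∀ N : ℕ, 1 ≤ N → ∀ n : ℕ, n < 2 ^ N →
    ∀ A : Finset ℕ, A ⊆ Finset.Icc 1 n → Av k n A →
      (A.card : ℝ) ≤ C * 2 ^ N * ρ ^ (Nat.log 2 N) := by
  classical
  obtain ⟨S, hS⟩ : ∃ S : ℝ, S = ∑' u : ℕ, ((u : ℝ) + 2 * (1 : ℕ)) ^ 2 / 2 ^ u := ⟨_, rfl⟩
  have hS0 : 0 ≤ S := by rw [hS]; exact tsum_nonneg (fun u => by positivity)
  obtain ⟨E, hE⟩ : ∃ E : ℝ, E = Real.exp (2 * c / ρ) := ⟨_, rfl⟩
  have hE0 : 0 < E := by rw [hE]; exact Real.exp_pos _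
  have hρ0 : 0 < ρ := by linarith
  refine ⟨4 * E * S + 1, by positivity, fun N hN n hn A hAn hA => ?_⟩
  obtain ⟨K, hK⟩ : ∃ K : ℕ, K = Nat.log 2 N := ⟨_, rfl⟩
  have hKN : 2 ^ K ≤ N := by rw [hK]; exact Nat.pow_log_le_self 2 (by omega)
  rw [← hK]
  have hterm : ∀ i ∈ Finset.range N, (cnt A (2 ^ i) (2 ^ i) : ℝ) ≤
      4 * E * ρ ^ K * (2 ^ i * ((((N - i : ℕ) : ℝ)) + 2 * (1 : ℕ)) ^ 2) := by
    intro i hi
    rw [Finset.mem_range] at hi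
    obtain ⟨l, hl⟩ : ∃ l : ℕ, l = Nat.clog 2 (N - i + 2 * 1) := ⟨_, rfl⟩
    have h1 : N - i + 2 * 1 ≤ 2 ^ l := by rw [hl]; exact Nat.le_pow_clog (by norm_num) _
    have h2 := dyadic' hρ hc hU hR hA hn hKN hi (by omega : N - i + 2 ≤ 2 ^ l)
    rw [← hE] at h2
    have h3 : 2 ^ l ≤ 2 * (N - i + 2 * 1) := by
      have h4 := Nat.pow_pred_clog_lt_self (b := 2) (by norm_num) (by omega : 1 < N - i + 2 * 1)
      rw [← hl] at h4
      have hl1 : 0 < l := by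
        rw [hl]
        exact Nat.clog_pos (by norm_num) (by omega)
      have h5 : 2 ^ l = 2 * 2 ^ (l.pred) := by
        rw [← pow_succ']
        congr 1
        have := Nat.succ_pred_eq_of_pos hl1
        omega
      omega
    have h3R : (2 : ℝ) ^ l ≤ 2 * (((N - i : ℕ) : ℝ) + 2 * (1 : ℕ)) := by exact_mod_cast h3
    have h4R : (4 : ℝ) ^ l ≤ 4 * (((N - i : ℕ) : ℝ) + 2 * (1 : ℕ)) ^ 2 := by
      have h6 : (4 : ℝ) ^ l = 2 ^ l * 2 ^ l := by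
        rw [← mul_pow]; norm_num
      rw [h6]
      have h7 : (0 : ℝ) < 2 ^ l := by positivity
      nlinarith
    calc (cnt A (2 ^ i) (2 ^ i) : ℝ) ≤ E * 2 ^ i * (ρ ^ K * 4 ^ l) := h2
      _ ≤ E * 2 ^ i * (ρ ^ K * (4 * (((N - i : ℕ) : ℝ) + 2 * (1 : ℕ)) ^ 2)) := by
          apply mul_le_mul_of_nonneg_left _ (by positivity)
          exact mul_le_mul_of_nonneg_left h4R (by positivity)
      _ = _ := by ring
  have hcard : (A.card : ℝ) ≤ ∑ i ∈ Finset.range N, (cnt A (2 ^ i) (2 ^ i) : ℝ) := by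
    have hsub : A ⊆ (Finset.range N).biUnion (fun i =>
        A.filter (fun a => 2 ^ i ≤ a ∧ a < 2 ^ i + 2 ^ i)) := by
      intro a ha
      have h1 := Finset.mem_Icc.1 (hAn ha)
      rw [Finset.mem_biUnion]
      refine ⟨Nat.log 2 a, ?_, ?_⟩
      · rw [Finset.mem_range]
        exact Nat.log_lt_of_lt_pow (by omega) (lt_of_le_of_lt h1.2 hn)
      · rw [Finset.mem_filter]
        refine ⟨ha, Nat.pow_log_le_self 2 (by omega), ?_⟩
        have := Nat.lt_pow_succ_log_self (b := 2) (by norm_num) a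
        rw [pow_succ] at this
        omega
    calc (A.card : ℝ) ≤ (((Finset.range N).biUnion (fun i =>
        A.filter (fun a => 2 ^ i ≤ a ∧ a < 2 ^ i + 2 ^ i))).card : ℝ) := by
          exact_mod_cast Finset.card_le_card hsub
      _ ≤ ((∑ i ∈ Finset.range N,
        (A.filter (fun a => 2 ^ i ≤ a ∧ a < 2 ^ i + 2 ^ i)).card : ℕ) : ℝ) := by
          exact_mod_cast Finset.card_biUnion_le
      _ = ∑ i ∈ Finset.range N, (cnt A (2 ^ i) (2 ^ i) : ℝ) := by push_cast; rfl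
  have hsum : ∑ i ∈ Finset.range N, ((2 : ℝ) ^ i * ((((N - i : ℕ) : ℝ)) + 2 * (1 : ℕ)) ^ 2)
      ≤ 2 ^ N * S := by
    rw [← Finset.sum_range_reflect]
    have h1 : ∀ u ∈ Finset.range N, (2 : ℝ) ^ (N - 1 - u) *
        ((((N - (N - 1 - u) : ℕ) : ℝ)) + 2 * (1 : ℕ)) ^ 2
        = 2 ^ N * ((((u + 1 : ℕ) : ℝ) + 2 * (1 : ℕ)) ^ 2 / 2 ^ (u + 1)) := by
      intro u hu
      rw [Finset.mem_range] at hu
      have h2 : N - (N - 1 - u) = u + 1 := by omega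
      rw [h2, mul_div_assoc', eq_div_iff (by positivity)]
      have h3 : (2 : ℝ) ^ N = 2 ^ (N - 1 - u) * 2 ^ (u + 1) := by
        rw [← pow_add]; congr 1; omega
      rw [h3]
      ring
    rw [Finset.sum_congr rfl h1, ← Finset.mul_sum]
    apply mul_le_mul_of_nonneg_left _ (by positivity)
    have h2 : ∑ u ∈ Finset.range N, (((u + 1 : ℕ) : ℝ) + 2 * (1 : ℕ)) ^ 2 / 2 ^ (u + 1)
        ≤ ∑ u ∈ Finset.range (N + 1), ((u : ℝ) + 2 * (1 : ℕ)) ^ 2 / 2 ^ u := by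
      rw [Finset.sum_range_succ' _ N]
      have : (0 : ℝ) ≤ (((0 : ℕ) : ℝ) + 2 * (1 : ℕ)) ^ 2 / 2 ^ 0 := by positivity
      linarith
    refine h2.trans ?_
    rw [hS]
    exact (summ 1).sum_le_tsum _ (fun u _ => by positivity)
  calc (A.card : ℝ) ≤ ∑ i ∈ Finset.range N, (cnt A (2 ^ i) (2 ^ i) : ℝ) := hcard
    _ ≤ ∑ i ∈ Finset.range N,
        4 * E * ρ ^ K * (2 ^ i * ((((N - i : ℕ) : ℝ)) + 2 * (1 : ℕ)) ^ 2) :=
        Finset.sum_le_sum hterm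
    _ = 4 * E * ρ ^ K *
        ∑ i ∈ Finset.range N, ((2 : ℝ) ^ i * ((((N - i : ℕ) : ℝ)) + 2 * (1 : ℕ)) ^ 2) := by
        rw [Finset.mul_sum]
    _ ≤ 4 * E * ρ ^ K * (2 ^ N * S) := mul_le_mul_of_nonneg_left hsum (by positivity)
    _ ≤ (4 * E * S + 1) * 2 ^ N * ρ ^ K := by
        have : (0 : ℝ) ≤ 2 ^ N * ρ ^ K := by positivity
        nlinarith

end Pool.Agent.N945.NP
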